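import Pool.Agent.Q271.Forest

set_option autoImplicit false

namespace Pool.Agent.Results.MP_b83ca4_nt.NeverUniformlyDiscrete

open Q271.Forest
open scoped Real

/-- For no `k` (in particular not for `k = 3`) is a union of `k` rotated and translated copies of
the triangular lattice a uniformly discrete dense forest. -/
theorem result (k : ℕ) (θ : Fin k → AddCircle (2 * π)) (x : Fin k → ℂ) :
    ¬ (UniformlyDiscrete (TBG k θ x) ∧ DenseForest (TBG k θ x)) := by
  rintro ⟨hud, hdf⟩
  -- all pairs are commensurable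
  have hcomm : ∀ i j : Fin k, ∃ w ∈ Lam, ∃ w' ∈ Lam, w ≠ 0 ∧
      (AddCircle.toCircle (θ i) : ℂ) * w = (AddCircle.toCircle (θ j) : ℂ) * w' := by
    intro i j
    by_contra h
    push Not at h
    exact not_uniformlyDiscrete_of_pair (AddCircle.toCircle (θ i) : ℂ)
      (AddCircle.toCircle (θ j) : ℂ) (x i) (x j) (Circle.norm_coe _) (Circle.norm_coe _)
      (fun w hw w' hw' hw0 => h w hw w' hw' hw0) (TBG k θ x) (fun w hw => ⟨i, w, hw, rfl⟩)
      (fun w hw => ⟨j, w, hw, rfl⟩) hud
  rcases Nat.eq_zero_or_pos k with hk | hk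
  · subst hk
    exact not_denseForest_of_comm (fun i : Fin 0 => (AddCircle.toCircle (θ i) : ℂ)) x
      1 one_ne_zero (fun _ => 1) (fun _ => one_mem) (fun i => i.elim0) hdf
  set o : Fin k := ⟨0, hk⟩
  choose a ha b hb ha0 hab using fun j => hcomm o j
  have hprod : ∀ s : Finset (Fin k), ∏ j ∈ s, a j ∈ Lam := by
    classical
    intro s
    induction s using Finset.induction_on with
    | empty => simpa using one_mem
    | insert j s hj ih =>
      rw [Finset.prod_insert hj]
      exact mul_mem (ha j) ih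
  classical
  refine not_denseForest_of_comm (fun i => (AddCircle.toCircle (θ i) : ℂ)) x
    ((AddCircle.toCircle (θ o) : ℂ) * ∏ j, a j)
    (mul_ne_zero (Circle.coe_ne_zero _) (Finset.prod_ne_zero_iff.2 fun j _ => ha0 j))
    (fun i => b i * ∏ j ∈ Finset.univ.erase i, a j) (fun i => mul_mem (hb i) (hprod _))
    (fun i => ?_) hdf
  rw [← Finset.mul_prod_erase Finset.univ a (Finset.mem_univ i), ← mul_assoc, hab i, mul_assoc]

end Pool.Agent.Results.MP_b83ca4_nt.NeverUniformlyDiscrete
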