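import Pool.Agent.Q271.ForestAE

set_option autoImplicit false

namespace Pool.Agent.Results.MP_b83ca4_nt.SmallestTwo

open Q271.Forest MeasureTheory
open scoped Real

set_option synthInstance.maxSize 10000 in
lemma neBot : (ae (volume : Measure ((Fin 2 → AddCircle (2 * π)) × (Fin 2 → ℂ)))).NeBot := by
  have h1 : (volume : Measure (Fin 2 → AddCircle (2 * π))).IsOpenPosMeasure := inferInstance
  have h2 : (volume : Measure (Fin 2 → ℂ)).IsOpenPosMeasure := inferInstance
  have h3 : (volume : Measure ((Fin 2 → AddCircle (2 * π)) × (Fin 2 → ℂ))).IsOpenPosMeasure :=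
    Measure.prod.instIsOpenPosMeasure
  infer_instance

/-- The smallest `k ≥ 1` for which a union of `k` rotated and translated copies of the triangular
lattice can be a dense forest is `2`. -/
theorem result : IsLeast {k : ℕ | 1 ≤ k ∧ ∃ (θ : Fin k → AddCircle (2 * π)) (x : Fin k → ℂ),
    DenseForest (TBG k θ x)} 2 := by
  constructor
  · refine ⟨by norm_num, ?_⟩
    have := neBot
    obtain ⟨P, hP⟩ := (ae_denseForest 2 le_rfl).exists
    exact ⟨P.1, P.2, hP⟩
  · rintro k ⟨hk, θ, x, hdf⟩
    by_contra hlt
    have hk1 : k = 1 := by omega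
    subst hk1
    refine not_denseForest_of_comm (fun i => (AddCircle.toCircle (θ i) : ℂ)) x
      (AddCircle.toCircle (θ 0) : ℂ) (Circle.coe_ne_zero _) (fun _ => 1) (fun _ => one_mem)
      (fun i => ?_) hdf
    rw [Subsingleton.elim i 0, mul_one]

end Pool.Agent.Results.MP_b83ca4_nt.SmallestTwo
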